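import Pool.Agent.H174.GP.StA
import Pool.Agent.H174.GP.StP
import Pool.Agent.H174.GP.StC
import Pool.Agent.H174.GP.StE

/-!
Project GP (helper174), part typs2: Gaussian tails for the small coordinates without the first one
(adapted from Pool.Agent.H505.GP174.typs).
-/

set_option autoImplicit false

open MeasureTheory Finset Filter Topology

namespace Pool.Agent.H668.GP174.Typs2

open Pool.Agent.H174.GP

/-- the centred term -/
noncomputable def ph (σ : ℝ) (j : ℕ) (y : ℝ) : ℝ :=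
  (j : ℝ) * (|(Tq (σ * j) y : ℝ)| - ∫ x, |(Tq (σ * j) x : ℝ)| ∂lap)

/-- the plain term -/
noncomputable def pl (σ : ℝ) (j : ℕ) (y : ℝ) : ℝ := (j : ℝ) * (Tq (σ * j) y : ℝ)

theorem sub_eq (h3 : S_Tqmean) (σ : ℝ) (hσ : 0 < σ) (ω : ℕ → ℝ) (B : ℕ) :
    (∑ j ∈ Finset.Icc 2 B, ((j : ℝ) * |(geo σ ω j : ℝ)| -
        (j : ℝ) * (2 * Real.exp (-(σ * j)) / (1 - Real.exp (-(2 * σ * j)))))) =
      ∑ j ∈ Finset.Icc 2 B, ph σ j (ω j) := by
  apply Finset.sum_congr rfl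
  intro j hj
  have hj0 : (0 : ℝ) < j := by
    have : 0 < j := by have := (Finset.mem_Icc.1 hj).1; omega
    exact_mod_cast this
  rw [ph, h3 _ (mul_pos hσ hj0), geo, mul_sub]
  congr 4
  ring_nf

theorem ev (κ ε' : ℝ) (hκ : 0 < κ) (hε' : 0 < ε') :
    ∃ d0 : ℕ, 2 ≤ d0 ∧ ∀ d : ℕ, d0 ≤ d → ε' * Real.log d ≤ κ * d := by
  have h := (Real.isLittleO_log_id_atTop.comp_tendsto tendsto_natCast_atTop_atTop).bound
    (div_pos hκ hε')
  obtain ⟨N, hN⟩ := eventually_atTop.1 h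
  refine ⟨max N 2, le_max_right _ _, fun d hd => ?_⟩
  have h1 := hN d ((le_max_left _ _).trans hd)
  simp only [Function.comp_apply, id, Real.norm_eq_abs] at h1
  rw [abs_of_nonneg (Real.log_natCast_nonneg d), abs_of_nonneg (Nat.cast_nonneg d)] at h1
  have h2 := mul_le_mul_of_nonneg_left h1 hε'.le
  have h3 : ε' * (κ / ε' * (d : ℝ)) = κ * d := by
    field_simp
  linarith

/-- The tail bound for general terms with a Gaussian bound for the moment generating function. -/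
theorem tail (h2 : S_chern) (s1 s2 ε' A Cm : ℝ) (hs1 : 0 < s1) (hs2 : 0 < s2) (hε' : 0 < ε')
    (hA : 0 < A) (hCm : 0 < Cm) : ∃ η : ℝ, 0 < η ∧ η < 1 ∧ ∃ d0 : ℕ, ∀ d ≥ d0, ∀ σ : ℝ, 0 < σ →
      s1 ≤ σ * d → σ * d ≤ s2 → ∀ B : ℕ, (B : ℝ) ≤ η * d → (B ≤ d) ∧ ∀ φ : ℕ → ℝ → ℝ,
      (∀ j ∈ Finset.Icc 2 B, Measurable (φ j)) →
      (∀ j ∈ Finset.Icc 2 B, ∀ s : ℝ, |s| ≤ 1 / 4 * σ →
        Integrable (fun x => Real.exp (s * φ j x)) lap ∧
        (∫ x, Real.exp (s * φ j x) ∂lap) ≤ Real.exp (Cm * (|s| / σ) ^ 2)) →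
      PP.real {ω | Real.sqrt (ε' * Real.log d) * (d : ℝ) ^ (3 / 2 : ℝ) ≤
        |∑ j ∈ Finset.Icc 2 B, φ j (ω j)|} ≤ (d : ℝ) ^ (-A) := by
  have hη1 : 0 < s1 ^ 2 * ε' / (4 * Cm * (A + 1)) := by positivity
  obtain ⟨η, hη⟩ : ∃ η, η = min (1 / 2) (s1 ^ 2 * ε' / (4 * Cm * (A + 1))) := ⟨_, rfl⟩
  have hη0 : 0 < η := by rw [hη]; exact lt_min (by norm_num) hη1
  have hηh : η ≤ 1 / 2 := by rw [hη]; exact min_le_left _ _
  have hηA : η * (4 * Cm * (A + 1)) ≤ s1 ^ 2 * ε' := by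
    have : η ≤ s1 ^ 2 * ε' / (4 * Cm * (A + 1)) := by rw [hη]; exact min_le_right _ _
    rwa [le_div_iff₀ (by positivity)] at this
  obtain ⟨κ, hκ⟩ : ∃ κ, κ = Cm * η / (2 * s2) := ⟨_, rfl⟩
  have hκ0 : 0 < κ := by rw [hκ]; positivity
  obtain ⟨d0, hd02, hd0⟩ := ev (κ ^ 2) ε' (by positivity) hε'
  refine ⟨η, hη0, by linarith, d0, fun d hd σ hσ hσ1 hσ2 B hB => ?_⟩
  have hd2 : 2 ≤ d := hd02.trans hd
  have hdpos : (0 : ℝ) < d := by
    have : 0 < d := by omega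
    exact_mod_cast this
  have hd2' : (2 : ℝ) ≤ d := by exact_mod_cast hd2
  have hlog : 0 < Real.log d := Real.log_pos (by linarith)
  have hlogd := hd0 d hd
  obtain ⟨u, hu⟩ : ∃ u, u = Real.sqrt (ε' * Real.log d) * (d : ℝ) ^ (3 / 2 : ℝ) := ⟨_, rfl⟩
  have hu0 : 0 ≤ u := by rw [hu]; positivity
  have hd3 : ((d : ℝ) ^ (3 / 2 : ℝ)) ^ 2 = (d : ℝ) ^ 3 := by
    rw [← Real.rpow_natCast, ← Real.rpow_mul hdpos.le]
    norm_num
  have hu2 : u ^ 2 = ε' * Real.log d * (d : ℝ) ^ 3 := by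
    rw [hu, mul_pow, Real.sq_sqrt (by positivity), hd3]
  have huκ : u ≤ κ * (d : ℝ) ^ 2 := by
    have h5 : u ^ 2 ≤ (κ * (d : ℝ) ^ 2) ^ 2 := by
      rw [hu2, mul_pow]
      have := mul_le_mul_of_nonneg_right hlogd (show (0 : ℝ) ≤ (d : ℝ) ^ 3 by positivity)
      calc ε' * Real.log d * (d : ℝ) ^ 3 ≤ κ ^ 2 * d * (d : ℝ) ^ 3 := this
        _ = κ ^ 2 * ((d : ℝ) ^ 2) ^ 2 := by ring
    exact le_of_sq_le_sq h5 (by positivity)
  obtain ⟨l, hl⟩ : ∃ l, l = σ * u / (2 * Cm * η * d) := ⟨_, rfl⟩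
  have hl0 : 0 ≤ l := by rw [hl]; positivity
  have hl4 : l ≤ 1 / 4 := by
    rw [hl, div_le_div_iff₀ (by positivity) (by norm_num)]
    have h5 : σ * u ≤ σ * (κ * (d : ℝ) ^ 2) := mul_le_mul_of_nonneg_left huκ hσ.le
    have h6 : σ * (κ * (d : ℝ) ^ 2) = (σ * d) * (κ * d) := by ring
    have h7 : (σ * d) * (κ * d) ≤ s2 * (κ * d) := mul_le_mul_of_nonneg_right hσ2 (by positivity)
    have h8 : s2 * (κ * d) = Cm * η * d / 2 := by
      rw [hκ]
      field_simp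
    linarith
  have hBd : (B : ℝ) ≤ d := hB.trans (by nlinarith)
  refine ⟨by exact_mod_cast hBd, fun φ hmeas hmg => ?_⟩
  have hlσ : 0 ≤ l * σ := mul_nonneg hl0 hσ.le
  have hls : l * σ ≤ 1 / 4 * σ := mul_le_mul_of_nonneg_right hl4 hσ.le
  -- the moment generating functions
  have hm : ∀ j ∈ Finset.Icc 2 B, ∀ s : ℝ, |s| = l * σ →
      Integrable (fun x => Real.exp (s * φ j x)) lap ∧
        (∫ x, Real.exp (s * φ j x) ∂lap) ≤ Real.exp (Cm * l ^ 2) := by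
    intro j hj s hs
    obtain ⟨h6, h7⟩ := hmg j hj s (hs.le.trans hls)
    refine ⟨h6, h7.trans (Real.exp_le_exp.2 (le_of_eq ?_))⟩
    rw [hs, mul_div_assoc, div_self hσ.ne', mul_one]
  have hch := h2 (Finset.Icc 2 B) φ (fun _ => Cm * l ^ 2) (l * σ) u hlσ hmeas ?_ ?_
  · rw [← hu]
    refine hch.trans ?_
    rw [Finset.sum_const, Nat.card_Icc, nsmul_eq_mul]
    have h5 : -(l * σ * u) + ((B + 1 - 2 : ℕ) : ℝ) * (Cm * l ^ 2) ≤ -((A + 1) * Real.log d) := by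
      have hB1 : ((B + 1 - 2 : ℕ) : ℝ) ≤ B := by
        have : B + 1 - 2 ≤ B := by omega
        exact_mod_cast this
      have h6 : ((B + 1 - 2 : ℕ) : ℝ) * (Cm * l ^ 2) ≤ η * d * (Cm * l ^ 2) :=
        mul_le_mul_of_nonneg_right (hB1.trans hB) (by positivity)
      have h7 : -(l * σ * u) + η * d * (Cm * l ^ 2) = -(σ ^ 2 * u ^ 2 / (4 * Cm * η * d)) := by
        rw [hl]
        field_simp
        ring
      have h8 : (A + 1) * Real.log d ≤ σ ^ 2 * u ^ 2 / (4 * Cm * η * d) := by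
        rw [le_div_iff₀ (by positivity), hu2]
        have h9 : s1 ^ 2 ≤ (σ * d) ^ 2 := pow_le_pow_left₀ hs1.le hσ1 2
        have h10 : η * (4 * Cm * (A + 1)) * (Real.log d * d) ≤ s1 ^ 2 * ε' * (Real.log d * d) :=
          mul_le_mul_of_nonneg_right hηA (by positivity)
        have h11 : s1 ^ 2 * (ε' * (Real.log d * d)) ≤ (σ * d) ^ 2 * (ε' * (Real.log d * d)) :=
          mul_le_mul_of_nonneg_right h9 (by positivity)
        calc (A + 1) * Real.log d * (4 * Cm * η * d)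
            = η * (4 * Cm * (A + 1)) * (Real.log d * d) := by ring
          _ ≤ s1 ^ 2 * ε' * (Real.log d * d) := h10
          _ = s1 ^ 2 * (ε' * (Real.log d * d)) := by ring
          _ ≤ (σ * d) ^ 2 * (ε' * (Real.log d * d)) := h11
          _ = σ ^ 2 * (ε' * Real.log d * (d : ℝ) ^ 3) := by ring
      linarith
    have h6 : Real.exp (-((A + 1) * Real.log d)) = (d : ℝ) ^ (-A) * (d : ℝ)⁻¹ := by
      rw [show -((A + 1) * Real.log d) = Real.log d * (-A + -1) by ring,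
        ← Real.rpow_def_of_pos hdpos, Real.rpow_add hdpos, Real.rpow_neg_one]
    calc 2 * Real.exp (-(l * σ * u) + ((B + 1 - 2 : ℕ) : ℝ) * (Cm * l ^ 2))
        ≤ 2 * Real.exp (-((A + 1) * Real.log d)) :=
          mul_le_mul_of_nonneg_left (Real.exp_le_exp.2 h5) (by norm_num)
      _ = (d : ℝ) ^ (-A) * (2 * (d : ℝ)⁻¹) := by rw [h6]; ring
      _ ≤ (d : ℝ) ^ (-A) * 1 := by
          apply mul_le_mul_of_nonneg_left _ (Real.rpow_nonneg hdpos.le _)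
          rw [← div_eq_mul_inv, div_le_one hdpos]
          exact hd2'
      _ = (d : ℝ) ^ (-A) := mul_one _
  · intro j hj
    refine ⟨(hm j hj (l * σ) (by rw [abs_of_nonneg hlσ])).1, ?_⟩
    have := (hm j hj (-(l * σ)) (by rw [abs_neg, abs_of_nonneg hlσ])).1
    simpa only [neg_mul] using this
  · intro j hj
    refine ⟨(hm j hj (l * σ) (by rw [abs_of_nonneg hlσ])).2, ?_⟩
    have := (hm j hj (-(l * σ)) (by rw [abs_neg, abs_of_nonneg hlσ])).2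
    simpa only [neg_mul] using this

theorem gp_typs2 (h1 : S_mgf) (h2 : S_chern) (h3 : S_Tqmean) (h4 : S_Tq) :
    Pool.Agent.H174.GP.S_typs2 := by
  intro s1 s2 ε' A hs1 hs2 hε' hA
  obtain ⟨Cm, hCm, hmgf⟩ := h1 s2 hs2
  obtain ⟨η, hη0, hη1, d0, hd0⟩ := tail h2 s1 s2 ε' A Cm hs1 hs2 hε' hA hCm
  refine ⟨η, hη0, hη1, d0, fun d hd σ hσ hσ1 hσ2 B hB => ?_⟩
  obtain ⟨hBd, ht⟩ := hd0 d hd σ hσ hσ1 hσ2 B hB
  have hje : ∀ j ∈ Finset.Icc 2 B, 0 < σ * j ∧ σ * j ≤ s2 ∧ (0 : ℝ) < j := by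
    intro j hj
    obtain ⟨hj1, hj2⟩ := Finset.mem_Icc.1 hj
    have hj0 : (0 : ℝ) < j := by
      have : 0 < j := by omega
      exact_mod_cast this
    refine ⟨mul_pos hσ hj0, ?_, hj0⟩
    have : (j : ℝ) ≤ d := by exact_mod_cast hj2.trans hBd
    exact (mul_le_mul_of_nonneg_left this hσ.le).trans hσ2
  have hmeas : ∀ j ∈ Finset.Icc 2 B, Measurable fun y : ℝ => (Tq (σ * j) y : ℝ) := fun j hj =>
    (measurable_from_top (f := fun z : ℤ => (z : ℝ))).comp (h4 _ (hje j hj).1).2.2.2.1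
  have hsj : ∀ j ∈ Finset.Icc 2 B, ∀ s : ℝ, |s| ≤ 1 / 4 * σ → |s * j| ≤ σ * j / 4 := by
    intro j hj s hs
    have hj0 := (hje j hj).2.2
    rw [abs_mul, abs_of_pos hj0]
    have := mul_le_mul_of_nonneg_right hs hj0.le
    linarith
  have hq : ∀ j ∈ Finset.Icc 2 B, ∀ s : ℝ, Cm * (s * j) ^ 2 / (σ * j) ^ 2 = Cm * (|s| / σ) ^ 2 := by
    intro j hj s
    have hj0 := (hje j hj).2.2
    rw [div_pow, sq_abs, mul_pow, mul_pow]
    field_simp
  constructor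
  · have := ht (pl σ) ?_ ?_
    · exact this
    · intro j hj
      exact (hmeas j hj).const_mul _
    · intro j hj s hs
      obtain ⟨h6, h7⟩ := (hmgf (σ * j) (s * j) (hje j hj).1 (hje j hj).2.1 (hsj j hj s hs)).1
      have e : ∀ x, s * pl σ j x = s * j * (Tq (σ * j) x : ℝ) := by
        intro x
        rw [pl]
        ring
      simp only [e]
      rw [hq j hj s] at h7
      exact ⟨h6, h7⟩
  · have := ht (ph σ) ?_ ?_
    · simp only [sub_eq h3 σ hσ]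
      exact this
    · intro j hj
      have : Measurable fun y : ℝ => |(Tq (σ * j) y : ℝ)| := (hmeas j hj).abs
      exact (this.sub_const _).const_mul _
    · intro j hj s hs
      obtain ⟨h6, h7⟩ := (hmgf (σ * j) (s * j) (hje j hj).1 (hje j hj).2.1 (hsj j hj s hs)).2
      have e : ∀ x, s * ph σ j x =
          s * j * (|(Tq (σ * j) x : ℝ)| - ∫ y, |(Tq (σ * j) y : ℝ)| ∂lap) := by
        intro x
        rw [ph]
        ring
      simp only [e]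
      rw [hq j hj s] at h7
      exact ⟨h6, h7⟩

end Pool.Agent.H668.GP174.Typs2
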